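import Pool.Agent.helper14.SP.Cube

/-!
# The 2-part of the sandpile group of the hypercube of dimension `2 ^ n`

For every `n ≥ 1` the Sylow 2-subgroup of `K(Q_{2^n})` is isomorphic to the product of two copies
of the Sylow 2-subgroup of `K(Q_{2^n-1})` and of a cyclic group of order `2^(2^n+n-1)`.

Outline of the proof.

1. (`SP/Model`, `SP/Cube`) The functions on `{0,1}^d` are identified with a recursive model
   `F_0 = R`, `F_{d+1} = F_d × F_d`, graded by the degree `0, ..., d`, in such a way that the
   Laplacian becomes `B = e + 2 D`, where `D` is the degree operator and `e` is the sum of the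
   raising operators.
2. (`SP/Grp`, `SP/Tors`) A finite abelian 2-group is determined by the number of its elements
   killed by `2^j`, for all `j`; for the group in question this number is the index of
   `im B + 2^j F` divided by `2^j`.  The index can be computed over the 2-adic integers.
3. (`SP/Stein`, `SP/Split`, `SP/StCount`, `SP/StIdx`) For `d = 2^n - 1` all binomial coefficients
   `C(d,k)` are odd, so the symmetric vectors split off, and so does the double of this part in
   dimension `d + 1`; on these parts the indices are computed explicitly.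
4. (`SP/Half`, `SP/Grad`) On the complement the weights `2k` may be replaced by
   `2(k - k0)`, `k0 = 2^(n-1)`, corrected by `2^n` in the middle degree `k0`.
   The invariants of the corrected operator are computed from the uncorrected one `E`
   by means of the modules `F/(im E + 2^j F)` and `F/(ker E + (im E : 2^n) + 2^i F)`; this uses the
   relation `2^n z ∈ E(F_{≥ k0})` for `z` of degree `> k0` (`SP/HOne`).
5. (`SP/Abs`, `SP/Stein`) An explicit idempotent `ε` shows that the operator `E` in dimension
   `d + 1` is conjugate to the swapped double of the operator `E` in dimension `d`.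
-/

namespace Pool.Agent.Results.MP_61b5b0_co.SandpileDoubling

open Pool.Agent.helper14.SP

/-- For every `n ≥ 1`, the `2`-primary component of the sandpile group of the hypercube graph
`Q_{2^n}` is isomorphic to
`Syl_2(K(Q_{2^n-1})) × Syl_2(K(Q_{2^n-1})) × ℤ/2^(2^n+n-1)`. -/
theorem result (n : ℕ) (hn : 1 ≤ n) :
    Isomorphic (SylK (2 ^ n))
      ((SylK (2 ^ n - 1) × SylK (2 ^ n - 1)) × ZMod (2 ^ (2 ^ n + n - 1))) := by
  obtain ⟨d, hd⟩ : ∃ d, 2 ^ n = d + 1 := ⟨2 ^ n - 1, by have := Nat.one_le_two_pow (n := n); omega⟩
  rw [hd, Nat.add_sub_cancel, show d + 1 + n - 1 = d + n by omega]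
  have := finite_SylK d
  have := finite_SylK (d + 1)
  refine iso_of_tc SylK_pow ?_ ?_
  · rintro ⟨⟨x, y⟩, z⟩
    obtain ⟨k, hk⟩ := SylK_pow x
    obtain ⟨l, hl⟩ := SylK_pow y
    refine ⟨k + (l + (d + n)), Prod.ext (Prod.ext ?_ ?_) ?_⟩
    · change 2 ^ (k + (l + (d + n))) • x = 0
      rw [pow_add, mul_comm, mul_smul, hk, smul_zero]
    · change 2 ^ (k + (l + (d + n))) • y = 0
      rw [show k + (l + (d + n)) = (k + (d + n)) + l by ring, pow_add, mul_smul, hl, smul_zero]
    · change 2 ^ (k + (l + (d + n))) • z = 0
      have e : 2 ^ (k + (l + (d + n))) = 2 ^ (k + l) * 2 ^ (d + n) := by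
        rw [← pow_add, add_assoc]
      rw [e, mul_smul]
      have : (2 ^ (d + n)) • z = 0 := by
        rw [nsmul_eq_mul, ZMod.natCast_self, zero_mul]
      rw [this, smul_zero]
  · intro j
    rw [tc_prod, tc_prod, tc_zmod]
    have h1 := cube_count (d + 1) j
    have h2 := cube_count d j
    have h3 := cnt_int' hn hd.symm j
    rw [← h1, ← h2] at h3
    have h4 : 0 < 2 ^ j * 2 ^ j := by positivity
    apply Nat.eq_of_mul_eq_mul_right h4
    calc _ = tc (SylK (d + 1)) j * 2 ^ j * 2 ^ j := by ring
      _ = _ := by rw [h3]; ring

end Pool.Agent.Results.MP_61b5b0_co.SandpileDoubling
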